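import Pool.Agent.H13.Mil.Milnor

set_option autoImplicit false

open MvPolynomial

namespace Pool.Agent.Results.MP_2e2d1a_ag.BeyondD

/-- Maximal rank beyond degree `d - 2`: every smooth hypersurface of dimension at least one. -/
theorem result (n d : ℕ) (f : MvPolynomial (Fin (n + 1)) ℂ) (hn : 1 ≤ n) (hd : 2 ≤ d)
    (hf : f.IsHomogeneous d)
    (hsm : ∀ x : Fin (n + 1) → ℂ, (∀ i, eval x (pderiv i f) = 0) → x = 0) :
    ∃ ℓ ∈ homogeneousSubmodule (Fin (n + 1)) ℂ 1,
      ∀ m k : ℕ,
        (m + k - (d - 1)) * (d - 1) ^ (n - 1) + H13.Mil.hc (n + 1) (d - 1) m < (d - 1) ^ n →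
        (∀ g ∈ homogeneousSubmodule (Fin (n + 1)) ℂ m,
          ℓ ^ k * g ∈ Ideal.span (Set.range fun j : Fin (n + 1) => pderiv j f) →
          g ∈ Ideal.span (Set.range fun j : Fin (n + 1) => pderiv j f)) ∧
        (∀ b : ℕ, m + k + b = (n + 1) * (d - 2) →
          ∀ h ∈ homogeneousSubmodule (Fin (n + 1)) ℂ (b + k),
          ∃ g ∈ homogeneousSubmodule (Fin (n + 1)) ℂ b,
            h - ℓ ^ k * g ∈ Ideal.span (Set.range fun j : Fin (n + 1) => pderiv j f)) := by
  have hF := H13.Mil.fam_milnor hf hsm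
  have he : 1 ≤ d - 1 := by omega
  have hd2 : d - 1 - 1 = d - 2 := by omega
  obtain ⟨l, hl⟩ := hF.exists_gn he
  refine ⟨l, hl.1, fun m k hmk => ?_⟩
  have hinj : H13.Mil.Inj (H13.Mil.sp (fun i => pderiv i f) Finset.univ) l m k := by
    rcases Nat.eq_or_lt_of_le hd with h2 | h2
    · -- degree two
      subst h2
      rcases Nat.eq_zero_or_pos k with hk | hk
      · subst hk
        intro y _ hy
        rwa [pow_zero, one_mul] at hy
      · exfalso
        simp only [Nat.add_one_sub_one, one_pow, mul_one] at hmk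
        have hm : m = 0 := by omega
        subst hm
        rw [← H13.Mil.hf_eq_hc (le_refl 1) hF, H13.Mil.hf_zero_of_ne_top] at hmk
        · omega
        · intro htop
          apply hF.one_notMem' le_rfl
          rw [htop]; trivial
    · apply hF.range2 he hl (hF.gn_ne_zero (by omega) (by omega) hl) (by omega)
      rw [H13.Mil.hf_eq_hc he hF]
      have h3 : n + 1 - 2 = n - 1 := by omega
      rw [h3]
      exact hmk
  rw [← H13.Mil.sp_univ_eq]
  refine ⟨fun g hg hmem => hinj g hg hmem, fun b hb p hp => ?_⟩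
  obtain ⟨y, hy, hmem⟩ := hF.dual_sur he hl.1 (a := m) (b := b) (k := k) (by rw [hd2]; exact hb)
    hinj p hp
  exact ⟨y, hy, hmem⟩

end Pool.Agent.Results.MP_2e2d1a_ag.BeyondD
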