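import Pool.Agent.H13.Mil.Milnor

set_option autoImplicit false

open MvPolynomial

namespace Pool.Agent.Results.MP_2e2d1a_ag.DegreeOne

/-- The Milnor algebra of every smooth hypersurface has the strong Lefschetz property in degrees
at most one and, dually, into degrees at least `σ - 1`, where `σ = (n + 1) (d - 2)` is the socle
degree: one linear form `ℓ` works for all powers. -/
theorem result (n d : ℕ) (f : MvPolynomial (Fin (n + 1)) ℂ) (hd : 2 ≤ d) (hf : f.IsHomogeneous d)
    (hsm : ∀ x : Fin (n + 1) → ℂ, (∀ i, eval x (pderiv i f) = 0) → x = 0) :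
    ∃ ℓ ∈ homogeneousSubmodule (Fin (n + 1)) ℂ 1,
      ∀ i k : ℕ, (i ≤ 1 ∨ (n + 1) * (d - 2) ≤ i + k + 1) →
        (∀ g ∈ homogeneousSubmodule (Fin (n + 1)) ℂ i,
          ℓ ^ k * g ∈ Ideal.span (Set.range fun j : Fin (n + 1) => pderiv j f) →
          g ∈ Ideal.span (Set.range fun j : Fin (n + 1) => pderiv j f)) ∨
        (∀ h ∈ homogeneousSubmodule (Fin (n + 1)) ℂ (i + k),
          ∃ g ∈ homogeneousSubmodule (Fin (n + 1)) ℂ i,
            h - ℓ ^ k * g ∈ Ideal.span (Set.range fun j : Fin (n + 1) => pderiv j f)) := by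
  have hF := H13.Mil.fam_milnor hf hsm
  obtain ⟨l, hl⟩ := hF.exists_gn (by omega)
  refine ⟨l, hl.1, fun i k hik => ?_⟩
  have h1 := hF.degree_one (by omega) hl (i := i) (k := k) (by
    have : d - 1 - 1 = d - 2 := by omega
    rw [this]; exact hik)
  rw [← H13.Mil.sp_univ_eq]
  rcases h1 with h1 | h1
  · left; exact fun g hg hmem => h1 g hg hmem
  · right
    intro p hp
    obtain ⟨y, hy, hmem⟩ := h1 p hp
    exact ⟨y, hy, hmem⟩

end Pool.Agent.Results.MP_2e2d1a_ag.DegreeOne
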