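import Pool.Agent.H13.Mil.Grow

set_option autoImplicit false

open MvPolynomial

namespace Pool.Agent.Results.MP_2e2d1a_ag.LargeDimension

/-- Fixed degree `d`, large dimension `n`: maximal rank from all degrees `m ≤ c log n` into all
degrees at most `σ - n ^ ε`, where `σ = (n + 1) (d - 2)` is the socle degree. -/
theorem result (d : ℕ) (hd : 3 ≤ d) (ε : ℝ) (hε : 0 < ε) :
    ∃ c : ℝ, 0 < c ∧ ∃ n₀ : ℕ, ∀ n : ℕ, n₀ ≤ n →
      ∀ f : MvPolynomial (Fin (n + 1)) ℂ, f.IsHomogeneous d →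
        (∀ x : Fin (n + 1) → ℂ, (∀ i, eval x (pderiv i f) = 0) → x = 0) →
        ∃ ℓ ∈ homogeneousSubmodule (Fin (n + 1)) ℂ 1,
          ∀ m k : ℕ, (m : ℝ) ≤ c * Real.log n →
            ((m + k : ℕ) : ℝ) + (n : ℝ) ^ ε ≤ (((n + 1) * (d - 2) : ℕ) : ℝ) →
            (∀ g ∈ homogeneousSubmodule (Fin (n + 1)) ℂ m,
              ℓ ^ k * g ∈ Ideal.span (Set.range fun j : Fin (n + 1) => pderiv j f) →
              g ∈ Ideal.span (Set.range fun j : Fin (n + 1) => pderiv j f)) ∧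
            (∀ b : ℕ, m + k + b = (n + 1) * (d - 2) →
              ∀ h ∈ homogeneousSubmodule (Fin (n + 1)) ℂ (b + k),
              ∃ g ∈ homogeneousSubmodule (Fin (n + 1)) ℂ b,
                h - ℓ ^ k * g ∈ Ideal.span (Set.range fun j : Fin (n + 1) => pderiv j f)) := by
  obtain ⟨c, hc, n₀, hn₀⟩ := H13.Mil.num_est (d - 1) (by omega) ε hε
  refine ⟨c, hc, n₀, fun n hn f hf hsm => ?_⟩
  have hF := H13.Mil.fam_milnor hf hsm
  have he : 1 ≤ d - 1 := by omega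
  have hd2 : d - 1 - 1 = d - 2 := by omega
  obtain ⟨l, hl⟩ := hF.exists_gn he
  refine ⟨l, hl.1, fun m k hm hmk => ?_⟩
  have hpow : (0 : ℝ) ≤ (n : ℝ) ^ ε := Real.rpow_nonneg (Nat.cast_nonneg n) ε
  have hle : m + k ≤ (n + 1) * (d - 2) := by
    have : ((m + k : ℕ) : ℝ) ≤ (((n + 1) * (d - 2) : ℕ) : ℝ) := by linarith
    exact_mod_cast this
  have hinj : H13.Mil.Inj (H13.Mil.sp (fun i => pderiv i f) Finset.univ) l m k := by
    apply hF.range3 (by omega) hl
    · rw [hd2]; omega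
    · have h1 := hn₀ n hn m ((n + 1) * (d - 1 - 1) + 1 - (m + k)) hm (by
        rw [hd2]
        have h2 : (n + 1) * (d - 2) + 1 - (m + k) = (n + 1) * (d - 2) - (m + k) + 1 := by omega
        rw [h2]
        push_cast [Nat.cast_sub hle]
        push_cast at hmk
        linarith)
      exact lt_of_le_of_lt (H13.Mil.hf_le_pow m) h1
  rw [← H13.Mil.sp_univ_eq]
  refine ⟨fun g hg hmem => hinj g hg hmem, fun b hb p hp => ?_⟩
  obtain ⟨y, hy, hmem⟩ := hF.dual_sur he hl.1 (a := m) (b := b) (k := k) (by rw [hd2]; exact hb)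
    hinj p hp
  exact ⟨y, hy, hmem⟩

end Pool.Agent.Results.MP_2e2d1a_ag.LargeDimension
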