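import Pool.Agent.H13.Mil.Milnor

set_option autoImplicit false

open MvPolynomial

namespace Pool.Agent.Results.MP_2e2d1a_ag.LowDegrees

/-- Injectivity up to the middle degree (and further) from low degrees, for all smooth
hypersurfaces. -/
theorem result (n d : ℕ) (f : MvPolynomial (Fin (n + 1)) ℂ) (hd : 2 ≤ d) (hf : f.IsHomogeneous d)
    (hsm : ∀ x : Fin (n + 1) → ℂ, (∀ i, eval x (pderiv i f) = 0) → x = 0) :
    ∃ ℓ ∈ homogeneousSubmodule (Fin (n + 1)) ℂ 1,
      ∀ m k : ℕ,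
        ((2 * m + 1 ≤ d ∧ 2 * (m + k) ≤ (n + 1) * (d - 2) + 1) ∨
          m * (d - 1) ^ n + ∑ i ∈ Finset.range k, H13.Mil.hc (n + 1) (d - 1) (m + i)
            < (d - 1) ^ (n + 1)) →
        (∀ g ∈ homogeneousSubmodule (Fin (n + 1)) ℂ m,
          ℓ ^ k * g ∈ Ideal.span (Set.range fun j : Fin (n + 1) => pderiv j f) →
          g ∈ Ideal.span (Set.range fun j : Fin (n + 1) => pderiv j f)) ∧
        (∀ b : ℕ, m + k + b = (n + 1) * (d - 2) →
          ∀ h ∈ homogeneousSubmodule (Fin (n + 1)) ℂ (b + k),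
          ∃ g ∈ homogeneousSubmodule (Fin (n + 1)) ℂ b,
            h - ℓ ^ k * g ∈ Ideal.span (Set.range fun j : Fin (n + 1) => pderiv j f)) := by
  have hF := H13.Mil.fam_milnor hf hsm
  have he : 1 ≤ d - 1 := by omega
  have hd2 : d - 1 - 1 = d - 2 := by omega
  obtain ⟨l, hl⟩ := hF.exists_gn he
  refine ⟨l, hl.1, fun m k hmk => ?_⟩
  have hinj : H13.Mil.Inj (H13.Mil.sp (fun i => pderiv i f) Finset.univ) l m k := by
    apply hF.range1 he hl
    rcases hmk with ⟨h1, h2⟩ | h1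
    · apply hF.half_range he (by omega) (by omega)
      rw [hd2]; exact h2
    · simp only [H13.Mil.hf_eq_hc he hF]
      exact h1
  rw [← H13.Mil.sp_univ_eq]
  refine ⟨fun g hg hmem => hinj g hg hmem, fun b hb p hp => ?_⟩
  obtain ⟨y, hy, hmem⟩ := hF.dual_sur he hl.1 (a := m) (b := b) (k := k) (by rw [hd2]; exact hb)
    hinj p hp
  exact ⟨y, hy, hmem⟩

end Pool.Agent.Results.MP_2e2d1a_ag.LowDegrees
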